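import Pool.Agent.Helper27.T5.Sch
import Pool.Agent.Helper30.T5.Size

/-!
# T5a (MP_12a1af): the two gap hypotheses of the final count

The chain is `Nj l * T (era l)`, where `(10^6)^W1 ≤ T j ≤ 2 (10^6)^W1`, `W1 = W m j 1`.
-/

set_option autoImplicit false

namespace Pool.Agent.Helper37.T5

open Finset Pool.Agent.Helper5.ET Pool.Agent.Helper27.T4 Pool.Agent.Helper27.T5
open Pool.Agent.Helper50.ET (Nj_pos)

/-- the chain -/
def XG (T : ℕ → ℕ) (l : ℕ) : ℕ := Nj l * T (era l)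

section

variable {m : ℕ} {T : ℕ → ℕ}

theorem log_pr_le' : Real.log 1000037 ≤ 15 := by
  have h : (1000037 : ℝ) ≤ Real.exp 15 := by
    have h1 : (2.7 : ℝ) ^ 15 ≤ (Real.exp 1) ^ 15 := by
      have := Real.exp_one_gt_d9
      gcongr
      linarith
    rw [← Real.exp_nat_mul] at h1
    norm_num at h1 ⊢
    linarith
  calc Real.log 1000037 ≤ Real.log (Real.exp 15) := Real.log_le_log (by norm_num) h
    _ = 15 := Real.log_exp 15

theorem log_million_le : Real.log (10 ^ 6) ≤ 15 := by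
  refine le_trans (Real.log_le_log (by norm_num) (by norm_num)) log_pr_le'

theorem T_pos (h1 : ∀ j, (10 ^ 6) ^ (W m j 1) ≤ T j) (j : ℕ) : 0 < T j :=
  lt_of_lt_of_le (by positivity) (h1 j)

theorem XG_pos (h1 : ∀ j, (10 ^ 6) ^ (W m j 1) ≤ T j) (l : ℕ) : 0 < XG T l :=
  Nat.mul_pos (Nj_pos l) (T_pos h1 _)

theorem log_XG (h1 : ∀ j, (10 ^ 6) ^ (W m j 1) ≤ T j) (l : ℕ) :
    Real.log (XG T l) = Real.log (Nj l) + Real.log (T (era l)) := by
  have a1 : (Nj l : ℝ) ≠ 0 := by exact_mod_cast (Nj_pos l).ne'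
  have a2 : (T (era l) : ℝ) ≠ 0 := by exact_mod_cast (T_pos h1 _).ne'
  unfold XG
  rw [Nat.cast_mul, Real.log_mul a1 a2]

theorem log_T_nonneg (h1 : ∀ j, (10 ^ 6) ^ (W m j 1) ≤ T j) (j : ℕ) : 0 ≤ Real.log (T j) :=
  Real.log_nonneg (by exact_mod_cast T_pos h1 j)

theorem log_T_le (h1 : ∀ j, (10 ^ 6) ^ (W m j 1) ≤ T j)
    (h2 : ∀ j, T j ≤ 2 * (10 ^ 6) ^ (W m j 1)) (j : ℕ) :
    Real.log (T j) ≤ 16 * (W m j 1 : ℝ) := by
  have hW : (1 : ℝ) ≤ (W m j 1 : ℝ) := by exact_mod_cast Pool.Agent.Helper27.T5.W_pos m j 1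
  have a0 : (0 : ℝ) < T j := by exact_mod_cast T_pos h1 j
  have a1 : (T j : ℝ) ≤ 2 * (10 ^ 6) ^ (W m j 1) := by exact_mod_cast h2 j
  have a2 : Real.log (T j) ≤ Real.log (2 * (10 ^ 6) ^ (W m j 1)) := Real.log_le_log a0 a1
  rw [Real.log_mul (by norm_num) (by positivity), Real.log_pow] at a2
  have a3 := log_million_le
  have a4 : Real.log 2 ≤ 1 := by
    have := Real.log_two_lt_d9
    linarith
  nlinarith

theorem log_Nj_sub {y z : ℕ} (h : y ≤ z) :
    0 ≤ Real.log (Nj z) - Real.log (Nj y) ∧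
      Real.log (Nj z) - Real.log (Nj y) ≤ 15 * ((z : ℝ) - y) := by
  have hy : (0 : ℝ) < Nj y := by exact_mod_cast Nj_pos y
  have hz : (0 : ℝ) < Nj z := by exact_mod_cast Nj_pos z
  constructor
  · have := Real.log_le_log hy (by exact_mod_cast Pool.Agent.Helper50.ET.Nj_mono h : (Nj y : ℝ) ≤ Nj z)
    linarith
  · have a1 : (Nj z : ℝ) ≤ Nj y * 1000037 ^ (z - y) := by
      exact_mod_cast Pool.Agent.Helper30.ET.Nj_upper h
    have a2 := Real.log_le_log hz a1
    rw [Real.log_mul hy.ne' (by positivity), Real.log_pow] at a2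
    have a3 := log_pr_le'
    have a4 : ((z - y : ℕ) : ℝ) = (z : ℝ) - y := by push_cast [h]; ring
    rw [a4] at a2
    have a5 : (0 : ℝ) ≤ (z : ℝ) - y := by
      rw [← a4]
      positivity
    nlinarith

/-- the windows of the first level in terms of the position -/
theorem W_one_le (hm : 1 < m) {j y : ℕ} (h : bb j ≤ 2 * y) :
    (W m j 1 : ℝ) ≤ 4 * (y : ℝ) ^ (1 - 1 / (m : ℝ)) := by
  have hm0 : 0 < m := by omega
  have a1 := Pool.Agent.Helper30.T5.W_le_rpow (m := m) (i := 1) hm0 hm.le j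
  have hmr : (1 : ℝ) < m := by exact_mod_cast hm
  have e0 : (0 : ℝ) ≤ 1 - 1 / (m : ℝ) := by
    have : 1 / (m : ℝ) ≤ 1 := by
      rw [div_le_one (by linarith)]
      linarith
    linarith
  have e1 : 1 - 1 / (m : ℝ) ≤ 1 := by
    have : (0 : ℝ) ≤ 1 / (m : ℝ) := by positivity
    linarith
  have a2 : ((bb j : ℝ)) ^ (1 - 1 / (m : ℝ)) ≤ (2 * (y : ℝ)) ^ (1 - 1 / (m : ℝ)) :=
    Real.rpow_le_rpow (by positivity) (by exact_mod_cast h) e0
  rw [Real.mul_rpow (by norm_num) (by positivity)] at a2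
  have a3 : (2 : ℝ) ^ (1 - 1 / (m : ℝ)) ≤ 2 := by
    calc (2 : ℝ) ^ (1 - 1 / (m : ℝ)) ≤ (2 : ℝ) ^ (1 : ℝ) :=
          Real.rpow_le_rpow_of_exponent_le (by norm_num) e1
      _ = 2 := by norm_num
  have a4 : (0 : ℝ) ≤ (y : ℝ) ^ (1 - 1 / (m : ℝ)) := by positivity
  push_cast at a1
  calc (W m j 1 : ℝ) ≤ 2 ^ 1 * (bb j : ℝ) ^ (1 - 1 / (m : ℝ)) := a1
    _ ≤ 2 * (2 ^ (1 - 1 / (m : ℝ)) * (y : ℝ) ^ (1 - 1 / (m : ℝ))) := by
        rw [pow_one]; gcongr
    _ ≤ 2 * (2 * (y : ℝ) ^ (1 - 1 / (m : ℝ))) := by gcongr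
    _ = 4 * (y : ℝ) ^ (1 - 1 / (m : ℝ)) := by ring

theorem era_add_two (y : ℕ) (hy : bb 0 ≤ y) : era (y + 2) ≤ era y + 1 := by
  have h1 := (era_spec y hy).2
  have h2 := bb_step (era y + 1)
  have h3 := bb_ge_pow (era y + 1)
  have h4 : y + 2 < bb (era y + 2) := by
    have : bb (era y + 1 + 1) = bb (era y + 2) := rfl
    omega
  by_contra hc
  push Not at hc
  have h5 := (era_spec (y + 2) (by omega)).1
  have h6 : bb (era y + 2) ≤ bb (era (y + 2)) := bb_strictMono.monotone hc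
  omega

/-- logarithmic distance of two positions of the chain -/
theorem log_XG_sub (h1 : ∀ j, (10 ^ 6) ^ (W m j 1) ≤ T j)
    (h2 : ∀ j, T j ≤ 2 * (10 ^ 6) ^ (W m j 1)) {y z J : ℕ} (hm : 0 < m) (h : y ≤ z)
    (hJ : era z ≤ J) :
    |Real.log (XG T z) - Real.log (XG T y)| ≤ 15 * ((z : ℝ) - y) + 16 * (W m J 1 : ℝ) := by
  rw [log_XG h1, log_XG h1]
  obtain ⟨a1, a2⟩ := log_Nj_sub h
  have b1 := log_T_nonneg h1 (era z)
  have b2 := log_T_nonneg h1 (era y)
  have b3 := log_T_le h1 h2 (era z)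
  have b4 := log_T_le h1 h2 (era y)
  have c1 : (W m (era z) 1 : ℝ) ≤ W m J 1 := by
    exact_mod_cast W_mono_one hm hJ
  have c2 : (W m (era y) 1 : ℝ) ≤ W m J 1 := by
    exact_mod_cast W_mono_one hm ((era_mono h).trans hJ)
  rw [abs_le]
  constructor <;> linarith

/-- in late eras the first window is small against the border -/
theorem W_one_small (hm : 1 < m) {j : ℕ} (hb : 10 * m ≤ la j) : 1024 * W m j 1 ≤ bb j := by
  have h1 := Pool.Agent.Helper27.T5.W_succ (m := m) (j := j) (i := 0) (by omega)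
  have h2 := rt_ge (m := m) hb (by omega)
  have h3 := Pool.Agent.Helper27.T5.W_zero_le m j
  rw [h1] at h3
  have h4 := Nat.mul_le_mul_right (W m j (0 + 1)) h2
  norm_num at h4 h3 ⊢
  omega

theorem rpow_mono_gap {c' : ℝ} (hc : c' ≤ 1 / (m : ℝ)) {K : ℕ} (hK : 1 ≤ K) :
    (K : ℝ) ^ (1 - 1 / (m : ℝ)) ≤ (K : ℝ) ^ (1 - c') :=
  Real.rpow_le_rpow_of_exponent_le (by exact_mod_cast hK) (by linarith)

/-- the common estimate -/
theorem near_gap (hm : 1 < m) {c' : ℝ} (hc : c' ≤ 1 / (m : ℝ)) {K : ℕ} (hK : bb 0 ≤ K)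
    {r : ℝ} (hr : r ≤ 6100 * (W m (era K + 1) 1 : ℝ)) : r ≤ 30000 * (K : ℝ) ^ (1 - c') := by
  have h1 := (era_spec K hK).1
  have h2 := bb_succ_le (era K)
  have h3 := W_one_le (m := m) hm (j := era K + 1) (y := K) (by omega)
  have hK1 : 1 ≤ K := le_trans (by have := bb_ge_pow 0; omega) hK
  have h4 := rpow_mono_gap (m := m) hc hK1
  have h5 : (0 : ℝ) ≤ (K : ℝ) ^ (1 - c') := by positivity
  linarith

theorem W_era_le (hm : 0 < m) (K : ℕ) :
    (W m (era K) 1 : ℝ) ≤ W m (era K + 1) 1 ∧ (1 : ℝ) ≤ W m (era K + 1) 1 := by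
  constructor
  · exact_mod_cast W_mono_one hm (Nat.le_succ _)
  · exact_mod_cast Pool.Agent.Helper27.T5.W_pos m (era K + 1) 1

/-- **hypothesis (H1)** -/
theorem gap_H1 (hm : 1 < m) (h1 : ∀ j, (10 ^ 6) ^ (W m j 1) ≤ T j)
    (h2 : ∀ j, T j ≤ 2 * (10 ^ 6) ^ (W m j 1)) {c' : ℝ} (hc : c' ≤ 1 / (m : ℝ)) (K1 : ℕ) :
    ∃ K2 : ℕ, ∀ K, K2 ≤ K → ∃ K', K1 ≤ K' ∧ K' ≤ K ∧ used m K' ∧
      Real.log (XG T (K + 2)) - Real.log (XG T K') ≤ 30000 * (K : ℝ) ^ (1 - c') := by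
  obtain ⟨j0, hj0⟩ := exists_large m
  refine ⟨bb (j0 + 1) + 2 * K1, fun K hK => ?_⟩
  obtain ⟨l, hl, hu, hj, hd⟩ := exists_used hj0 hm (show bb (j0 + 1) ≤ K by omega)
  have hK0 : bb 0 ≤ K := (bb_strictMono.monotone (Nat.zero_le (j0 + 1))).trans (by omega)
  have hmem := (era_spec K hK0).1
  have hera : j0 ≤ era K := hj.trans (era_mono hl)
  have hs := W_one_small hm (hj0 _ hera)
  refine ⟨l, by omega, hl, hu, ?_⟩
  have h3 := log_XG_sub h1 h2 (y := l) (z := K + 2) (J := era K + 1) (by omega) (by omega)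
    (era_add_two K hK0)
  have h4 := (abs_le.1 h3).2
  refine near_gap hm hc hK0 (h4.trans ?_)
  obtain ⟨h5, h6⟩ := W_era_le (m := m) (by omega) K
  have h7 : ((K + 2 : ℕ) : ℝ) - l ≤ 402 * (W m (era K) 1 : ℝ) + 2 := by
    have : (K : ℝ) ≤ l + 402 * (W m (era K) 1 : ℝ) := by exact_mod_cast hd
    push_cast
    linarith
  linarith

/-- the borders: `b j = log X` at the border `bb (j0 + j + 1)` -/
noncomputable def bg (T : ℕ → ℕ) (j0 j : ℕ) : ℝ := Real.log (XG T (bb (j0 + j + 1)))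

/-- **hypothesis (H2)** -/
theorem gap_H2 (hm : 1 < m) (h1 : ∀ j, (10 ^ 6) ^ (W m j 1) ≤ T j)
    (h2 : ∀ j, T j ≤ 2 * (10 ^ 6) ^ (W m j 1)) {c' : ℝ} (hc : c' ≤ 1 / (m : ℝ)) (j0 : ℕ) :
    ∃ K2 : ℕ, ∀ K, K2 ≤ K → (used m K ∧ XG T (K + 2) ≤ 1000037 ^ 2 * XG T K) ∨
      ∃ j, |Real.log (XG T (K + 2)) - bg T j0 j| ≤ 30000 * (K : ℝ) ^ (1 - c') ∧
        |Real.log (XG T K) - bg T j0 j| ≤ 30000 * (K : ℝ) ^ (1 - c') := by
  obtain ⟨j1, hj1⟩ := exists_large m
  refine ⟨bb (j0 + j1 + 2), fun K hK => ?_⟩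
  have hK0 : bb 0 ≤ K := (bb_strictMono.monotone (Nat.zero_le _)).trans hK
  have hspec := era_spec K hK0
  have hera : j0 + j1 + 2 ≤ era K := by
    by_contra hcon
    have := bb_strictMono.monotone (show era K + 1 ≤ j0 + j1 + 2 by omega)
    omega
  have hb := hj1 (era K) (by omega)
  obtain ⟨h5, h6⟩ := W_era_le (m := m) (by omega) K
  have hW := Pool.Agent.Helper27.T5.W_pos m (era K) 1
  have hlen := era_len (m := m) hb (by omega)
  by_cases c1 : bb (era K) + 200 * W m (era K) 1 ≤ K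
  · by_cases c2 : K + 201 * W m (era K) 1 ≤ bb (era K + 1)
    · left
      refine ⟨used_of_mem hb hm c1 c2, ?_⟩
      have he : era (K + 2) = era K := era_eq _ _ (by omega) (by omega)
      have h3 := Pool.Agent.Helper30.ET.Nj_upper (show K ≤ K + 2 by omega)
      unfold XG
      rw [he]
      calc Nj (K + 2) * T (era K) ≤ (Nj K * 1000037 ^ (K + 2 - K)) * T (era K) :=
            Nat.mul_le_mul_right _ h3
        _ = 1000037 ^ 2 * (Nj K * T (era K)) := by
            rw [show K + 2 - K = 2 by omega]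
            ring
    · right
      refine ⟨era K - j0, ?_⟩
      have hj : j0 + (era K - j0) + 1 = era K + 1 := by omega
      have hbg : bg T j0 (era K - j0) = Real.log (XG T (bb (era K + 1))) := by
        unfold bg
        rw [hj]
      rw [hbg]
      have h7 := log_XG_sub h1 h2 (y := K) (z := bb (era K + 1)) (J := era K + 1) (by omega)
        hspec.2.le (by rw [era_bb])
      have h8 := log_XG_sub h1 h2 (y := K) (z := K + 2) (J := era K + 1) (by omega) (by omega)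
        (era_add_two K hK0)
      have h9 : ((bb (era K + 1) : ℕ) : ℝ) ≤ K + 201 * (W m (era K) 1 : ℝ) := by
        exact_mod_cast (by omega : bb (era K + 1) ≤ K + 201 * W m (era K) 1)
      push_cast at h8
      constructor
      · refine near_gap hm hc hK0 ?_
        have h10 := abs_sub_le (Real.log (XG T (K + 2))) (Real.log (XG T K))
          (Real.log (XG T (bb (era K + 1))))
        rw [abs_sub_comm (Real.log (XG T K))] at h10
        linarith
      · refine near_gap hm hc hK0 ?_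
        rw [abs_sub_comm]
        linarith
  · right
    refine ⟨era K - j0 - 1, ?_⟩
    have hj : j0 + (era K - j0 - 1) + 1 = era K := by omega
    have hbg : bg T j0 (era K - j0 - 1) = Real.log (XG T (bb (era K))) := by
      unfold bg
      rw [hj]
    rw [hbg]
    have h7 := log_XG_sub h1 h2 (y := bb (era K)) (z := K) (J := era K + 1) (by omega)
      hspec.1 (Nat.le_succ _)
    have h8 := log_XG_sub h1 h2 (y := bb (era K)) (z := K + 2) (J := era K + 1) (by omega)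
      (by omega) (era_add_two K hK0)
    have h9 : (K : ℝ) ≤ (bb (era K) : ℝ) + 200 * (W m (era K) 1 : ℝ) := by
      exact_mod_cast (by omega : K ≤ bb (era K) + 200 * W m (era K) 1)
    push_cast at h8
    constructor
    · refine near_gap hm hc hK0 ?_
      linarith
    · refine near_gap hm hc hK0 ?_
      linarith

theorem bg_nonneg (h1 : ∀ j, (10 ^ 6) ^ (W m j 1) ≤ T j) (j0 j : ℕ) : 0 ≤ bg T j0 j :=
  Real.log_nonneg (by exact_mod_cast XG_pos h1 _)

/-- **growth of the borders** -/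
theorem bg_growth (hm : 1 < m) (h1 : ∀ j, (10 ^ 6) ^ (W m j 1) ≤ T j)
    (h2 : ∀ j, T j ≤ 2 * (10 ^ 6) ^ (W m j 1)) {j0 : ℕ} (hj0 : ∀ j ≥ j0, 10 * m ≤ la j) (j : ℕ) :
    1.4 * bg T j0 j ≤ bg T j0 (j + 1) := by
  unfold bg
  rw [show j0 + (j + 1) + 1 = j0 + j + 1 + 1 by ring]
  generalize hi : j0 + j + 1 = i
  have hs := W_one_small hm (hj0 i (by omega))
  have hst := (bb_step i).1
  have hbig := bb_ge_pow i
  rw [log_XG h1, log_XG h1, era_bb, era_bb]
  have a1 := log_T_nonneg h1 (i + 1)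
  have a2 := log_T_le h1 h2 i
  have hN0 : Nj 0 = 1 := Pool.Agent.Helper30.ET.Nj_zero
  have b1 : (bb i : ℝ) * Real.log 1000037 ≥ Real.log (Nj (bb i)) := by
    have := Pool.Agent.Helper30.ET.Nj_upper (Nat.zero_le (bb i))
    rw [hN0, one_mul, Nat.sub_zero] at this
    have h3 : (Nj (bb i) : ℝ) ≤ 1000037 ^ (bb i) := by exact_mod_cast this
    have h4 := Real.log_le_log (by exact_mod_cast Nj_pos (bb i)) h3
    rwa [Real.log_pow] at h4
  have b2 : (bb (i + 1) : ℝ) * Real.log 1000003 ≤ Real.log (Nj (bb (i + 1))) := by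
    have := Pool.Agent.Helper30.ET.Nj_lower (Nat.zero_le (bb (i + 1)))
    rw [hN0, one_mul, Nat.sub_zero] at this
    have h3 : ((1000003 : ℝ)) ^ (bb (i + 1)) ≤ Nj (bb (i + 1)) := by exact_mod_cast this
    have h4 := Real.log_le_log (by positivity) h3
    rwa [Real.log_pow] at h4
  have c1 : Real.log 1000037 ≤ Real.log 1000003 + 34 / 1000003 := by
    have : Real.log 1000037 = Real.log 1000003 + Real.log (1000037 / 1000003) := by
      rw [← Real.log_mul (by norm_num) (by norm_num)]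
      norm_num
    rw [this]
    have := Real.log_le_sub_one_of_pos (show (0 : ℝ) < 1000037 / 1000003 by norm_num)
    linarith
  have c2 : (1 : ℝ) ≤ Real.log 1000003 := by
    rw [Real.le_log_iff_exp_le (by norm_num)]
    have := Real.exp_one_lt_d9
    linarith
  have d1 : 1024 * (W m i 1 : ℝ) ≤ (bb i : ℝ) := by exact_mod_cast hs
  have d2 : 3 * (bb i : ℝ) ≤ 2 * (bb (i + 1) : ℝ) + 1 := by
    exact_mod_cast (by omega : 3 * bb i ≤ 2 * bb (i + 1) + 1)
  have d3 : (2 : ℝ) ^ 64 ≤ (bb i : ℝ) := by exact_mod_cast hbig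
  set L := Real.log 1000003
  set B : ℝ := (bb i : ℝ)
  set B' : ℝ := (bb (i + 1) : ℝ)
  have d4 : (100 : ℝ) ≤ B := le_trans (by norm_num) d3
  have e1 : Real.log (Nj (bb i)) ≤ B * (L + 34 / 1000003) :=
    b1.le.trans (mul_le_mul_of_nonneg_left c1 (by positivity))
  have e2 : 1.4 * (Real.log (Nj (bb i)) + Real.log (T i)) ≤
      1.4 * (B * (L + 34 / 1000003) + B / 64) := by linarith
  have e3 : (3 * B - 1) / 2 * L ≤ B' * L := mul_le_mul_of_nonneg_right (by linarith) (by linarith)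
  have e4 : 1.4 * (B * (L + 34 / 1000003) + B / 64) ≤ (3 * B - 1) / 2 * L := by
    nlinarith
  linarith

end

end Pool.Agent.Helper37.T5
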