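import Pool.Agent.Helper27.T5.SchDefs

/-!
# T5a: fronts on the states, the finest common front

Facts about `ef` and `fc` of `Helper27.T5.SchDefs` for two states of the same era.  The hypothesis
`10 ≤ la j / m` (the era is not too early) makes all steps `PP m j i`, `i + 1 ≤ m`, positive.
-/

set_option autoImplicit false

namespace Pool.Agent.Helper37.T5

open Pool.Agent.Helper5.ET Pool.Agent.Helper27.T5

/-! ## the steps -/

theorem ex_add {m j i : ℕ} (hi : i + 1 ≤ m) :
    la j - i * (la j / m) = (la j - (i + 1) * (la j / m)) + la j / m := by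
  have h1 : (i + 1) * (la j / m) ≤ la j :=
    (Nat.mul_le_mul_right _ hi).trans (by rw [mul_comm]; exact Nat.div_mul_le_self _ _)
  have h2 : (i + 1) * (la j / m) = i * (la j / m) + la j / m := by ring
  generalize la j / m = q at *
  omega

theorem ex_ge {m j i : ℕ} (hi : i + 1 ≤ m) : la j / m ≤ la j - i * (la j / m) := by
  rw [ex_add hi]
  omega

theorem PP_eq {m j i : ℕ} (h10 : 10 ≤ la j / m) (hi : i + 1 ≤ m) :
    PP m j i = 2 ^ (la j - i * (la j / m) - 9) := by
  have h1 := ex_ge (j := j) hi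
  unfold PP W
  rw [Nat.pow_div (by omega) (by norm_num)]

theorem PP_pos {m j i : ℕ} (h10 : 10 ≤ la j / m) (hi : i + 1 ≤ m) : 0 < PP m j i := by
  rw [PP_eq h10 hi]
  positivity

/-- `512 PP = W` -/
theorem W_eq_PP {m j i : ℕ} (h10 : 10 ≤ la j / m) (hi : i + 1 ≤ m) :
    W m j i = 512 * PP m j i := by
  have h1 := ex_ge (j := j) hi
  rw [PP_eq h10 hi]
  unfold W
  rw [show (512 : ℕ) = 2 ^ 9 by norm_num, ← pow_add]
  congr 1
  omega

/-- the steps of consecutive levels -/
theorem PP_step {m j i : ℕ} (h10 : 10 ≤ la j / m) (hi : i + 2 ≤ m) :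
    PP m j i = 2 * 2 ^ (la j / m - 1) * PP m j (i + 1) := by
  rw [PP_eq h10 (by omega), PP_eq h10 (by omega), ← pow_succ', ← pow_add]
  congr 1
  have h1 := ex_add (j := j) (show i + 1 ≤ m by omega)
  have h2 := ex_ge (j := j) (show (i + 1) + 1 ≤ m by omega)
  omega

/-- the steps of two levels -/
theorem PP_steps {m j i i' : ℕ} (h10 : 10 ≤ la j / m) (hii : i < i') (hi : i' + 1 ≤ m) :
    PP m j i = 2 * 2 ^ ((i' - i) * (la j / m) - 1) * PP m j i' := by
  induction i' with
  | zero => omega
  | succ t ih =>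
    rcases Nat.lt_or_ge i t with h | h
    · rw [ih h (by omega), PP_step h10 (show t + 2 ≤ m by omega)]
      rw [show t + 1 - i = (t - i) + 1 by omega]
      have h3 : 1 ≤ (t - i) * (la j / m) := Nat.mul_pos (by omega) (by omega)
      have e1 : ((t - i) + 1) * (la j / m) - 1 = ((t - i) * (la j / m) - 1) + 1 +
          (la j / m - 1) := by
        have : ((t - i) + 1) * (la j / m) = (t - i) * (la j / m) + la j / m := by ring
        omega
      rw [e1, pow_add, pow_add]
      ring
    · have : t = i := by omega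
      subst this
      rw [PP_step h10 (show t + 2 ≤ m by omega), show t + 1 - t = 1 by omega, one_mul]

/-- a coarser step is at least `1024` times a finer one -/
theorem PP_anti {m j i i' : ℕ} (h10 : 10 ≤ la j / m) (hii : i < i') (hi : i' + 1 ≤ m) :
    1024 * PP m j i' ≤ PP m j i := by
  rw [PP_steps h10 hii hi]
  have h3 : 10 ≤ (i' - i) * (la j / m) := by
    calc 10 ≤ la j / m := h10
      _ = 1 * (la j / m) := (one_mul _).symm
      _ ≤ (i' - i) * (la j / m) := Nat.mul_le_mul_right _ (by omega)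
  apply Nat.mul_le_mul_right
  calc (1024 : ℕ) = 2 * 2 ^ 9 := by norm_num
    _ ≤ 2 * 2 ^ ((i' - i) * (la j / m) - 1) :=
      Nat.mul_le_mul_left _ (Nat.pow_le_pow_right (by norm_num) (by omega))

/-! ## the fronts of one state -/

theorem ef_eq {m i l j : ℕ} (hj : era l = j) : ef m i l = fr (PP m j i) 6 l := by
  unfold ef
  rw [hj]

theorem two_ef_le {m i l j : ℕ} (hj : era l = j) : 2 * ef m i l ≤ 2 * l + 13 * PP m j i := by
  rw [ef_eq hj]
  have := two_fr_le (PP m j i) 6 l
  omega

theorem lt_two_ef {m i l j : ℕ} (hj : era l = j) (h : 0 < PP m j i) :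
    2 * l + 11 * PP m j i < 2 * ef m i l := by
  rw [ef_eq hj]
  have := lt_two_fr (PP m j i) 6 l h
  omega

/-- lead between `5 PP` and `7 PP` -/
theorem ef_ge {m i l j : ℕ} (hj : era l = j) (h : 0 < PP m j i) :
    l + 5 * PP m j i < ef m i l := by
  have := lt_two_ef (m := m) (i := i) hj h
  omega

theorem ef_le {m i l j : ℕ} (hj : era l = j) : ef m i l ≤ l + 7 * PP m j i := by
  have := two_ef_le (m := m) (i := i) hj
  omega

/-- the fronts of one state are ordered -/
theorem ef_anti {m l j i i' : ℕ} (hj : era l = j) (h10 : 10 ≤ la j / m) (hii : i < i')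
    (hi : i' + 1 ≤ m) : ef m i' l < ef m i l := by
  have h1 := two_ef_le (m := m) (i := i') hj
  have h2 := lt_two_ef (m := m) (i := i) hj (PP_pos h10 (by omega))
  have h3 := PP_anti h10 hii hi
  omega

theorem ef_anti' {m l j i i' : ℕ} (hj : era l = j) (h10 : 10 ≤ la j / m) (hii : i ≤ i')
    (hi : i' + 1 ≤ m) : ef m i' l ≤ ef m i l := by
  rcases hii.eq_or_lt with h | h
  · rw [h]
  · exact (ef_anti hj h10 h hi).le

/-- for a used state all fronts are inside the era -/
theorem ef_used {m l j i : ℕ} (hj : era l = j) (h10 : 10 ≤ la j / m) (hu : used m l)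
    (h1 : 1 ≤ i) (hi : i + 1 ≤ m) : ef m i l + 200 * W m j 1 ≤ bb (j + 1) := by
  have h2 := hu.2
  rw [hj] at h2
  have h3 := ef_anti' hj h10 h1 hi
  omega

/-! ## two states of one era -/

section pair

variable {m k l l' j : ℕ}

theorem ef_mono {i : ℕ} (hj : era l = j) (hj' : era l' = j) (h : l' ≤ l) :
    ef m i l' ≤ ef m i l := by
  rw [ef_eq hj, ef_eq hj']
  exact fr_mono _ _ h

/-- the lead changes by less than one step -/
theorem ef_le_add {i : ℕ} (hj : era l = j) (hj' : era l' = j) (hp : 0 < PP m j i) :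
    ef m i l < ef m i l' + (l - l') + PP m j i := by
  rw [ef_eq hj, ef_eq hj']
  exact fr_le_add _ _ hp

theorem add_le_ef {i : ℕ} (hj : era l = j) (hj' : era l' = j) (h : l' ≤ l)
    (hp : 0 < PP m j i) : ef m i l' + (l - l') < ef m i l + PP m j i := by
  have h1 := two_ef_le (m := m) (i := i) hj'
  have h2 := lt_two_ef (m := m) (i := i) hj hp
  omega

/-- a front which has jumped -/
theorem ef_jump {i : ℕ} (hj : era l = j) (hj' : era l' = j) (h : l' ≤ l)
    (hne : ef m i l' ≠ ef m i l) : ef m i l' + PP m j i ≤ ef m i l := by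
  rw [ef_eq hj, ef_eq hj'] at *
  exact fr_add_step _ _ h hne

/-- a front which has not jumped -/
theorem dist_lt_PP {i : ℕ} (hj : era l = j) (hj' : era l' = j) (h : l' ≤ l)
    (hp : 0 < PP m j i) (he : ef m i l' = ef m i l) : l - l' < PP m j i := by
  rw [ef_eq hj, ef_eq hj'] at he
  exact dist_lt hp h he

/-- two jumped fronts -/
theorem PP_lt_dist {i i' : ℕ} (hj : era l = j) (hj' : era l' = j) (h10 : 10 ≤ la j / m)
    (h : l' ≤ l) (hii : i < i') (hi : i' + 1 ≤ m)
    (h1 : ef m i l' ≠ ef m i l) (h2 : ef m i' l' ≠ ef m i' l) : PP m j i' < 2 * (l - l') := by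
  rw [ef_eq hj, ef_eq hj'] at h1 h2
  exact jump_sep (PP_pos h10 hi) (by positivity) (PP_steps h10 hii hi) h h1 h2

/-! ### the finest common front -/

theorem fc_le : fc m k l' l ≤ k + 1 := Nat.findGreatest_le _

theorem fc_common (h : 1 ≤ fc m k l' l) :
    ef m (fc m k l' l) l' = ef m (fc m k l' l) l := by
  have := Nat.findGreatest_of_ne_zero (P := fun i => 1 ≤ i ∧ ef m i l' = ef m i l) (n := k + 1)
    (m := fc m k l' l) rfl (by omega)
  exact this.2

theorem fc_ne {i : ℕ} (h1 : fc m k l' l < i) (h2 : i ≤ k + 1) : ef m i l' ≠ ef m i l := by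
  intro he
  exact Nat.findGreatest_is_greatest (P := fun i => 1 ≤ i ∧ ef m i l' = ef m i l) h1 h2
    ⟨by omega, he⟩

theorem le_fc {i : ℕ} (h0 : 1 ≤ i) (h2 : i ≤ k + 1) (he : ef m i l' = ef m i l) :
    i ≤ fc m k l' l :=
  Nat.le_findGreatest h2 ⟨h0, he⟩

/-- all fronts are common for `l' = l` -/
theorem fc_self : fc m k l l = k + 1 :=
  le_antisymm fc_le (le_fc (by omega) le_rfl rfl)

/-- the common front is bounded by the common fronts: the coarser fronts of both states are at
least as far as the common one -/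
theorem fc_front {i : ℕ} (hj : era l = j) (hj' : era l' = j) (h10 : 10 ≤ la j / m)
    (hkm : k + 2 ≤ m) (h : 1 ≤ fc m k l' l) (hi : i ≤ fc m k l' l) :
    ef m (fc m k l' l) l ≤ ef m i l ∧ ef m (fc m k l' l) l ≤ ef m i l' := by
  have h1 : fc m k l' l + 1 ≤ m := by
    have := fc_le (m := m) (k := k) (l := l) (l' := l')
    omega
  refine ⟨ef_anti' hj h10 hi h1, ?_⟩
  rw [← fc_common h]
  exact ef_anti' hj' h10 hi h1

/-- a common front bounds the distance from above -/
theorem dist_lt_of_fc (hj : era l = j) (hj' : era l' = j) (h10 : 10 ≤ la j / m)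
    (hkm : k + 2 ≤ m) (h : l' ≤ l) (h1 : 1 ≤ fc m k l' l) :
    l - l' < PP m j (fc m k l' l) :=
  dist_lt_PP hj hj' h (PP_pos h10 (by
    have := fc_le (m := m) (k := k) (l := l) (l' := l')
    omega)) (fc_common h1)

/-- two levels below the finest common front bound the distance from below; also for `fc = 0` -/
theorem dist_gt_of_fc (hj : era l = j) (hj' : era l' = j) (h10 : 10 ≤ la j / m)
    (hkm : k + 2 ≤ m) (h : l' ≤ l) (h1 : fc m k l' l + 1 ≤ k) :
    PP m j (fc m k l' l + 2) < 2 * (l - l') :=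
  PP_lt_dist hj hj' h10 h (show fc m k l' l + 1 < fc m k l' l + 2 by omega) (by omega)
    (fc_ne (k := k) (by omega) (by omega)) (fc_ne (k := k) (by omega) (by omega))

/-- only the last front has jumped: the states are different -/
theorem lt_of_fc (h : l' ≤ l) (h1 : fc m k l' l ≤ k) : l' < l := by
  rcases h.eq_or_lt with h2 | h2
  · subst h2
    rw [fc_self] at h1
    omega
  · exact h2

/-- the growth `mu` of a jumped front: at least one step, and `l - l'` up to one step -/
theorem mu_of_fc {i : ℕ} (hj : era l = j) (hj' : era l' = j) (h10 : 10 ≤ la j / m)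
    (hkm : k + 2 ≤ m) (h : l' ≤ l) (h1 : fc m k l' l < i) (h2 : i ≤ k + 1) :
    ef m i l' + PP m j i ≤ ef m i l ∧ ef m i l < ef m i l' + (l - l') + PP m j i ∧
      ef m i l' + (l - l') < ef m i l + PP m j i := by
  have hp : 0 < PP m j i := PP_pos h10 (by omega)
  exact ⟨ef_jump hj hj' h (fc_ne h1 h2), ef_le_add hj hj' hp, add_le_ef hj hj' h hp⟩

end pair

end Pool.Agent.Helper37.T5
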