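import Mathlib

/-!
# Fronts of the static design (T5, note 3095)

`fr P m l` is the position of a front with step `P` and lead `m * P` when the moving modulus is at
`l`: it stands still and jumps by `P` at the times `P * (z + 1/2)`.
-/

namespace Pool.Agent.Helper37.T5

/-- position of the front -/
def fr (P m l : ℕ) : ℕ := P * ((2 * l + P) / (2 * P) + m)

theorem fr_mono (P m : ℕ) {l l' : ℕ} (h : l' ≤ l) : fr P m l' ≤ fr P m l := by
  unfold fr
  gcongr

/-- upper bound of the lead -/
theorem two_fr_le (P m l : ℕ) : 2 * fr P m l ≤ 2 * l + (2 * m + 1) * P := by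
  unfold fr
  have h := Nat.mul_div_le (2 * l + P) (2 * P)
  nlinarith

/-- lower bound of the lead -/
theorem lt_two_fr (P m l : ℕ) (hP : 0 < P) : 2 * l + 2 * m * P < 2 * fr P m l + P := by
  unfold fr
  have h := Nat.lt_mul_div_succ (2 * l + P) (show 0 < 2 * P by omega)
  nlinarith

/-- lower bound of the lead, `1 ≤ m` -/
theorem le_fr (P m l : ℕ) (hP : 0 < P) (hm : 1 ≤ m) : l < fr P m l := by
  have h := lt_two_fr P m l hP
  nlinarith

/-- the lead changes by at most one step -/
theorem fr_le_add (P m : ℕ) {l l' : ℕ} (hP : 0 < P) :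
    fr P m l < fr P m l' + (l - l') + P := by
  have h1 := two_fr_le P m l
  have h2 := lt_two_fr P m l' hP
  have h3 : l ≤ l' + (l - l') := by omega
  nlinarith

/-- a front which has jumped has moved by a multiple of its step -/
theorem fr_add_step (P m : ℕ) {l l' : ℕ} (h : l' ≤ l) (hne : fr P m l' ≠ fr P m l) :
    fr P m l' + P ≤ fr P m l := by
  have h1 := fr_mono P m h
  have h2 : fr P m l' < fr P m l := lt_of_le_of_ne h1 hne
  unfold fr at h2 ⊢
  have h3 : (2 * l' + P) / (2 * P) + m < (2 * l + P) / (2 * P) + m := by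
    by_contra hc
    exact absurd (Nat.mul_le_mul_left P (not_lt.1 hc)) (by omega)
  calc P * ((2 * l' + P) / (2 * P) + m) + P = P * ((2 * l' + P) / (2 * P) + m + 1) := by ring
    _ ≤ P * ((2 * l + P) / (2 * P) + m) := Nat.mul_le_mul_left P h3

/-- a jump of a front gives a half odd multiple of the step in the interval -/
theorem exists_jump (P m : ℕ) {l l' : ℕ} (hP : 0 < P) (h : l' ≤ l)
    (hne : fr P m l' ≠ fr P m l) : ∃ z : ℕ, 2 * l' < 2 * P * z + P ∧ 2 * P * z + P ≤ 2 * l := by
  have h1 := fr_mono P m h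
  have h2 : fr P m l' < fr P m l := lt_of_le_of_ne h1 hne
  unfold fr at h2
  have h3 : (2 * l' + P) / (2 * P) + m < (2 * l + P) / (2 * P) + m := by
    by_contra hc
    exact absurd (Nat.mul_le_mul_left P (not_lt.1 hc)) (by omega)
  have h4 : (2 * l' + P) / (2 * P) + 1 ≤ (2 * l + P) / (2 * P) := by omega
  obtain ⟨w, hw⟩ : ∃ w, (2 * l + P) / (2 * P) = w + 1 :=
    Nat.exists_eq_succ_of_ne_zero (Nat.pos_iff_ne_zero.1 (lt_of_lt_of_le (Nat.succ_pos _) h4))
  refine ⟨w, ?_, ?_⟩
  · have h5 : (2 * l' + P) / (2 * P) < w + 1 := by rw [← hw]; exact h4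
    have h6 := (Nat.div_lt_iff_lt_mul (show 0 < 2 * P by omega)).1 h5
    nlinarith
  · have h7 := Nat.mul_div_le (2 * l + P) (2 * P)
    rw [hw] at h7
    nlinarith

/-- **separation of the jumps**: if the step of the coarser front is an even multiple of the step
of the finer one, two jumps in one interval need length `Q / 2`. -/
theorem jump_sep {P Q N m m' l l' : ℕ} (hQ : 0 < Q) (hN : 0 < N) (hPQ : P = 2 * N * Q)
    (h : l' ≤ l) (h1 : fr P m l' ≠ fr P m l) (h2 : fr Q m' l' ≠ fr Q m' l) :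
    Q < 2 * (l - l') := by
  have hP : 0 < P := by rw [hPQ]; positivity
  obtain ⟨z, hz1, hz2⟩ := exists_jump P m hP h h1
  obtain ⟨y, hy1, hy2⟩ := exists_jump Q m' hQ h h2
  -- the jump of the coarse front is at an even multiple of `Q` (twice the time)
  have e1 : 2 * P * z + P = 2 * Q * (N * (2 * z + 1)) := by rw [hPQ]; ring
  rw [e1] at hz1 hz2
  set a := N * (2 * z + 1) with ha
  have hd : 2 * l' + 2 * (l - l') = 2 * l := by omega
  rcases le_or_gt a y with hay | hay
  · -- `a ≤ y`
    have h5 : 2 * Q * a + Q ≤ 2 * Q * y + Q := by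
      have := Nat.mul_le_mul_left (2 * Q) hay
      omega
    omega
  · have h5 : 2 * Q * (y + 1) ≤ 2 * Q * a := Nat.mul_le_mul_left (2 * Q) hay
    have h6 : 2 * Q * (y + 1) = 2 * Q * y + 2 * Q := by ring
    omega

/-- the divisibility of the steps along the levels -/
theorem step_mul {P N : ℕ → ℕ} (hPN : ∀ j, P j = 2 * N (j + 1) * P (j + 1)) (j i : ℕ) :
    ∃ n, P j = 2 ^ i * n * P (j + i) ∧ ((∀ t, 0 < N t) → 0 < n) := by
  induction i with
  | zero => exact ⟨1, by simp, fun _ => one_pos⟩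
  | succ i ih =>
    obtain ⟨n, hn, hp⟩ := ih
    refine ⟨n * N (j + i + 1), ?_, fun h => Nat.mul_pos (hp h) (h _)⟩
    rw [hn, hPN (j + i)]
    ring_nf

/-- **levels**: two different fronts `j < i` which have both jumped need `P i < 2 (l - l')`. -/
theorem level_sep {P N m : ℕ → ℕ} (hP : ∀ j, 0 < P j) (hN : ∀ j, 0 < N j)
    (hPN : ∀ j, P j = 2 * N (j + 1) * P (j + 1)) {l l' j i : ℕ} (hji : j < i) (h : l' ≤ l)
    (h1 : fr (P j) (m j) l' ≠ fr (P j) (m j) l) (h2 : fr (P i) (m i) l' ≠ fr (P i) (m i) l) :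
    P i < 2 * (l - l') := by
  obtain ⟨n, hn, hp⟩ := step_mul hPN j (i - j)
  have hpos := hp hN
  obtain ⟨t, ht⟩ : ∃ t, i - j = t + 1 := ⟨i - j - 1, by omega⟩
  rw [show j + (i - j) = i by omega, ht] at hn
  refine jump_sep (P := P j) (N := 2 ^ t * n) (hP i) (by positivity) ?_ h h1 h2
  rw [hn]
  ring

/-- a front with `2 (l - l') ≤ P` which has not jumped is the common front: if it has jumped, the
finer and the coarser fronts have not -/
theorem one_jump {P N m : ℕ → ℕ} (hP : ∀ j, 0 < P j) (hN : ∀ j, 0 < N j)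
    (hPN : ∀ j, P j = 2 * N (j + 1) * P (j + 1)) {l l' j i : ℕ} (hji : j < i) (h : l' ≤ l)
    (hd : 2 * (l - l') ≤ P i) :
    fr (P j) (m j) l' = fr (P j) (m j) l ∨ fr (P i) (m i) l' = fr (P i) (m i) l := by
  by_contra hc
  push Not at hc
  have := level_sep hP hN hPN hji h hc.1 hc.2
  omega

/-- a front of step `P` which stands still bounds the distance -/
theorem dist_lt {P m l l' : ℕ} (hP : 0 < P) (h : l' ≤ l) (he : fr P m l' = fr P m l) :
    l - l' < P := by
  by_contra hc
  have h1 := two_fr_le P m l'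
  have h2 := lt_two_fr P m l hP
  rw [← he] at h2
  have h3 : l' + P ≤ l := by omega
  nlinarith

end Pool.Agent.Helper37.T5
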